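import Mathlib
import Pool.Agent.Helper56.SKR.Semi

/-!
# A pencil of symmetric forms
-/

namespace Pool.Agent.Helper34.SKF

open Module Pool.Agent.Helper56.SKR

/-- good parameters: infinitely many `t ≠ 0` with the kernel of `B + t C` complementary to `V₁` -/
theorem good_inf {k V : Type*} [Field k] [Infinite k] [AddCommGroup V] [Module k V]
    [FiniteDimensional k V] (B C : V →ₗ[k] V →ₗ[k] k) (V1 : Submodule k V)
    (hV1 : IsCompl (LinearMap.ker B) V1)
    (hr : ∀ t : k, finrank k (LinearMap.ker B) ≤ finrank k (LinearMap.ker (B + t • C))) :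
    ∃ S : Set k, S.Infinite ∧ ∀ t ∈ S, t ≠ 0 ∧ LinearMap.ker (B + t • C) ⊔ V1 = ⊤ := by
  have hinj : Function.Injective (B.comp V1.subtype) := by
    rw [← LinearMap.ker_eq_bot, LinearMap.ker_eq_bot']
    intro c hc
    have h1 : (c : V) ∈ LinearMap.ker B ⊓ V1 := ⟨hc, c.2⟩
    rw [hV1.inf_eq_bot, Submodule.mem_bot] at h1
    exact Subtype.ext h1
  obtain ⟨P, hP⟩ := LinearMap.exists_leftInverse_of_injective _ (LinearMap.ker_eq_bot.2 hinj)
  let T : Module.End k V1 := P.comp (C.comp V1.subtype)
  have hfin : (({0} : Set k) ∪ ({μ | T.HasEigenvalue μ}.image fun s => -s⁻¹)).Finite :=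
    (Set.finite_singleton 0).union ((Module.End.finite_hasEigenvalue T).image _)
  refine ⟨_, hfin.infinite_compl, fun t ht => ?_⟩
  rw [Set.mem_compl_iff, Set.mem_union, not_or] at ht
  obtain ⟨ht0, ht1⟩ := ht
  have ht0' : t ≠ 0 := fun h => ht0 h
  refine ⟨ht0', ?_⟩
  have hdis : Disjoint (LinearMap.ker (B + t • C)) V1 := by
    rw [Submodule.disjoint_def]
    intro v hv hvC
    by_contra hv0
    apply ht1
    refine ⟨-t⁻¹, ?_, by show -(-t⁻¹)⁻¹ = t; rw [inv_neg, inv_inv, neg_neg]⟩
    refine Module.End.hasEigenvalue_of_hasEigenvector (x := (⟨v, hvC⟩ : V1)) ⟨?_, ?_⟩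
    · rw [Module.End.mem_eigenspace_iff]
      have h2 : P ((B + t • C) v) = 0 := by
        rw [LinearMap.mem_ker.1 hv, map_zero]
      have h3 : P (B v) = ⟨v, hvC⟩ := LinearMap.congr_fun hP ⟨v, hvC⟩
      rw [LinearMap.add_apply, LinearMap.smul_apply, map_add, map_smul, h3] at h2
      have h4 : T ⟨v, hvC⟩ = P (C v) := rfl
      rw [h4]
      have h5 : t • P (C v) = - (⟨v, hvC⟩ : V1) := (eq_neg_of_add_eq_zero_right h2)
      calc P (C v) = t⁻¹ • (t • P (C v)) := by rw [smul_smul, inv_mul_cancel₀ ht0', one_smul]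
        _ = (-t⁻¹) • (⟨v, hvC⟩ : V1) := by rw [h5, smul_neg, neg_smul]
    · intro h0
      apply hv0
      exact congrArg Subtype.val h0
  have h1 := Submodule.finrank_sup_add_finrank_inf_eq (LinearMap.ker (B + t • C)) V1
  rw [hdis.eq_bot, finrank_bot, add_zero] at h1
  have h2 := Submodule.finrank_add_eq_of_isCompl hV1
  have h3 := hr t
  have h4 := Submodule.finrank_le (LinearMap.ker (B + t • C) ⊔ V1)
  apply Submodule.eq_top_of_finrank_eq
  omega

open Polynomial Matrix in
theorem pencil {k V : Type*} [Field k] [Infinite k] [AddCommGroup V] [Module k V]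
    [FiniteDimensional k V] (h2 : (2 : k) ≠ 0) (B C : V →ₗ[k] V →ₗ[k] k)
    (hB : ∀ v w, B v w = B w v) (hC : ∀ v w, C v w = C w v)
    (hr : ∀ t : k, finrank k (LinearMap.ker B) ≤ finrank k (LinearMap.ker (B + t • C))) :
    (∀ v ∈ LinearMap.ker B, ∀ w ∈ LinearMap.ker B, C v w = 0) ∧
      ∀ v ∈ LinearMap.ker B, ∀ y, B y = C v → C v y = 0 := by
  classical
  obtain ⟨V1, hV1⟩ := (LinearMap.ker B).exists_isCompl
  let ι := Fin (finrank k V1)
  let e : Basis ι k V1 := finBasis k V1
  let M0 : Matrix ι ι k := Matrix.of fun i j => B (e j) (e i)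
  let M1 : Matrix ι ι k := Matrix.of fun i j => C (e j) (e i)
  let MX : Matrix ι ι k[X] := M0.map Polynomial.C + (X : k[X]) • M1.map Polynomial.C
  have heval : ∀ t : k, (Polynomial.evalRingHom t).mapMatrix MX = M0 + t • M1 := by
    intro t
    ext i j
    simp only [MX, RingHom.mapMatrix_apply, Matrix.map_apply, Matrix.add_apply, Matrix.smul_apply,
      smul_eq_mul, Polynomial.coe_evalRingHom, eval_add, eval_C, eval_mul, eval_X]
  obtain ⟨S, hS, hSg⟩ := good_inf B C V1 hV1 hr
  -- coordinates
  have hcoe : ∀ y : V1, (y : V) = ∑ j, e.repr y j • (e j : V) := by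
    intro y
    have := congrArg V1.subtype (e.sum_repr y)
    rw [map_sum] at this
    simp only [map_smul, Submodule.subtype_apply] at this
    exact this.symm
  have hmul : ∀ (D : V →ₗ[k] V →ₗ[k] k) (y : V1) (i : ι),
      ((Matrix.of fun i j => D (e j) (e i) : Matrix ι ι k) *ᵥ (e.repr y)) i = D y (e i) := by
    intro D y i
    have h1 := hcoe y
    rw [h1, map_sum, LinearMap.sum_apply, Matrix.mulVec, dotProduct]
    refine Finset.sum_congr rfl fun j _ => ?_
    rw [Matrix.of_apply, map_smul, LinearMap.smul_apply, smul_eq_mul, mul_comm]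
  have hM0 : M0.det ≠ 0 := by
    intro h0
    obtain ⟨x, hx, hx0⟩ := Matrix.exists_mulVec_eq_zero_iff.2 h0
    apply hx
    set y : V1 := ∑ j, x j • e j with hy
    have hrep : ∀ j, e.repr y j = x j := by
      intro j
      rw [hy, e.repr_sum_self]
    have h1 : ∀ i, B y (e i) = 0 := by
      intro i
      rw [← hmul B y i]
      have : (fun j => e.repr y j) = x := funext hrep
      rw [show (⇑(e.repr y) : ι → k) = x from this]
      exact congrFun hx0 i
    have h3 : B y = 0 := by
      apply LinearMap.ext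
      intro w
      have hw : w ∈ LinearMap.ker B ⊔ V1 := by rw [hV1.sup_eq_top]; trivial
      obtain ⟨a, ha, b, hb, rfl⟩ := Submodule.mem_sup.1 hw
      have h4 : (b : V) = ∑ j, e.repr ⟨b, hb⟩ j • (e j : V) := hcoe ⟨b, hb⟩
      rw [map_add, hB, LinearMap.mem_ker.1 ha, LinearMap.zero_apply, zero_add, h4, map_sum]
      rw [LinearMap.zero_apply]
      refine Finset.sum_eq_zero fun j _ => ?_
      rw [map_smul, h1, smul_zero]
    have h5 : (y : V) ∈ LinearMap.ker B ⊓ V1 := ⟨h3, y.2⟩
    rw [hV1.inf_eq_bot, Submodule.mem_bot] at h5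
    have h6 : y = 0 := Subtype.ext h5
    funext j
    rw [← hrep j, h6]; simp
  -- the main computation
  have main : ∀ v ∈ LinearMap.ker B, C v v = 0 ∧
      (fun i => C v (e i)) ⬝ᵥ (M0.adjugate *ᵥ fun i => C v (e i)) = 0 := by
    intro v hv
    set c : ι → k := fun i => C v (e i) with hc
    let cX : ι → k[X] := fun i => Polynomial.C (c i)
    let SX : k[X] := cX ⬝ᵥ (MX.adjugate *ᵥ cX)
    have hSXe : ∀ t : k, SX.eval t = c ⬝ᵥ ((M0 + t • M1).adjugate *ᵥ c) := by
      intro t
      rw [← heval t, ← RingHom.map_adjugate]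
      simp [SX, cX, Matrix.mulVec, dotProduct, Polynomial.eval_finsetSum]
    have hDXe : ∀ t : k, MX.det.eval t = (M0 + t • M1).det := by
      intro t
      rw [← heval t, ← RingHom.map_det]
      rfl
    have hid : Polynomial.C (C v v) * MX.det = X * SX := by
      apply Polynomial.eq_of_infinite_eval_eq
      refine hS.mono fun t ht => ?_
      obtain ⟨ht0, htop⟩ := hSg t ht
      have hvt : v ∈ LinearMap.ker (B + t • C) ⊔ V1 := by rw [htop]; trivial
      obtain ⟨a, ha, b, hb, hab⟩ := Submodule.mem_sup.1 hvt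
      -- `(B + t C) b = t C v`
      have h3 : ∀ w, B b w + t * C b w = t * C v w := by
        intro w
        have h4 := LinearMap.congr_fun (LinearMap.mem_ker.1 ha) w
        rw [LinearMap.add_apply, LinearMap.smul_apply, LinearMap.add_apply,
          LinearMap.smul_apply, smul_eq_mul, LinearMap.zero_apply] at h4
        have h5 : B v w = 0 := by rw [LinearMap.mem_ker.1 hv, LinearMap.zero_apply]
        rw [← hab, map_add, LinearMap.add_apply] at h5
        rw [← hab, map_add, LinearMap.add_apply]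
        linear_combination h5 - h4
      have h6 : (M0 + t • M1) *ᵥ (e.repr ⟨b, hb⟩) = t • c := by
        funext i
        rw [Matrix.add_mulVec, Pi.add_apply, Matrix.smul_mulVec, Pi.smul_apply, hmul B, hmul C,
          Pi.smul_apply, smul_eq_mul, smul_eq_mul]
        exact h3 (e i)
      have h7 : t • ((M0 + t • M1).adjugate *ᵥ c) = (M0 + t • M1).det • ⇑(e.repr ⟨b, hb⟩) := by
        rw [← Matrix.mulVec_smul, ← h6, Matrix.mulVec_mulVec, Matrix.adjugate_mul,
          Matrix.smul_mulVec, Matrix.one_mulVec]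
      have h8 : c ⬝ᵥ (e.repr ⟨b, hb⟩) = C v b := by
        have h9 : (b : V) = ∑ j, e.repr ⟨b, hb⟩ j • (e j : V) := hcoe ⟨b, hb⟩
        conv_rhs => rw [h9]
        rw [map_sum, dotProduct]
        refine Finset.sum_congr rfl fun j _ => ?_
        rw [map_smul, smul_eq_mul, mul_comm]
      have h10 : C v v = C v b := by
        have h11 := h3 v
        have h12 : B b v = 0 := by rw [hB, LinearMap.mem_ker.1 hv, LinearMap.zero_apply]
        rw [h12, zero_add] at h11
        have := mul_left_cancel₀ ht0 h11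
        rw [← this, hC]
      show (Polynomial.C (C v v) * MX.det).eval t = (X * SX).eval t
      rw [eval_mul, eval_C, eval_mul, eval_X, hSXe, hDXe]
      have h13 : t * (c ⬝ᵥ ((M0 + t • M1).adjugate *ᵥ c)) = (M0 + t • M1).det * C v b := by
        rw [← smul_eq_mul, ← dotProduct_smul, h7, dotProduct_smul, h8, smul_eq_mul]
      rw [h13, h10]; ring
    have hz : C v v = 0 := by
      have := congrArg (Polynomial.eval 0) hid
      rw [eval_mul, eval_C, eval_mul, eval_X, zero_mul, hDXe, zero_smul, add_zero] at this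
      rcases mul_eq_zero.1 this with h | h
      · exact h
      · exact absurd h hM0
    refine ⟨hz, ?_⟩
    rw [hz, map_zero, zero_mul] at hid
    have h14 : SX = 0 := by
      rcases mul_eq_zero.1 hid.symm with h | h
      · exact absurd h X_ne_zero
      · exact h
    have h15 := hSXe 0
    rw [h14, eval_zero, zero_smul, add_zero] at h15
    exact h15.symm
  have first : ∀ v ∈ LinearMap.ker B, ∀ w ∈ LinearMap.ker B, C v w = 0 := by
    intro v hv w hw
    have e1 := (main v hv).1
    have e2 := (main w hw).1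
    have e3 := (main (v + w) ((LinearMap.ker B).add_mem hv hw)).1
    rw [map_add, map_add, LinearMap.add_apply, LinearMap.add_apply, e1, e2, hC w v] at e3
    have e5 : (2 : k) * C v w = 0 := by linear_combination e3
    rcases mul_eq_zero.1 e5 with h | h
    · exact absurd h h2
    · exact h
  refine ⟨first, fun v hv y hy => ?_⟩
  have hyt : y ∈ LinearMap.ker B ⊔ V1 := by rw [hV1.sup_eq_top]; trivial
  obtain ⟨a, ha, b, hb, rfl⟩ := Submodule.mem_sup.1 hyt
  rw [map_add, LinearMap.mem_ker.1 ha, zero_add] at hy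
  rw [map_add, first v hv a ha, zero_add]
  have h1 : M0 *ᵥ (e.repr ⟨b, hb⟩) = fun i => C v (e i) := by
    funext i
    rw [hmul B, ← hy]
  have h3 := (main v hv).2
  rw [← h1, Matrix.mulVec_mulVec, Matrix.adjugate_mul, Matrix.smul_mulVec, Matrix.one_mulVec,
    dotProduct_smul, smul_eq_mul] at h3
  rcases mul_eq_zero.1 h3 with h | h
  · exact absurd h hM0
  · rw [h1] at h
    have h9 : (b : V) = ∑ j, e.repr ⟨b, hb⟩ j • (e j : V) := hcoe ⟨b, hb⟩
    rw [h9, map_sum]
    rw [← h, dotProduct]
    refine Finset.sum_congr rfl fun j _ => ?_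
    rw [map_smul, smul_eq_mul, mul_comm]

end Pool.Agent.Helper34.SKF
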