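import Mathlib
import Pool.Agent.Helper56.SKF.Defs
import Pool.Agent.Helper34.SKF.Pencil

/-!
# The rank of `form₁` on the centraliser of a kernel vector
-/

namespace Pool.Agent.Helper34.SKF

open Module Pool.Agent.Helper56.SKW Pool.Agent.Helper56.SKW.PBW Pool.Agent.Helper56.SKU
  Pool.Agent.Helper56.SKR Pool.Agent.Helper56.SKF

universe u v w

/-- The range of a symmetric form. -/
theorem mem_range_symm {k V : Type*} [Field k] [AddCommGroup V] [Module k V]
    [FiniteDimensional k V] (B : V →ₗ[k] V →ₗ[k] k) (hB : ∀ v w, B v w = B w v)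
    (f : Dual k V) (hf : ∀ v ∈ LinearMap.ker B, f v = 0) : ∃ y, B y = f := by
  have hle : LinearMap.range B ≤ (LinearMap.ker B).dualAnnihilator := by
    rintro _ ⟨y, rfl⟩
    rw [Submodule.mem_dualAnnihilator]
    intro v hv
    rw [hB, LinearMap.mem_ker.1 hv, LinearMap.zero_apply]
  have h1 := LinearMap.finrank_range_add_finrank_ker B
  have h2 := Subspace.finrank_add_finrank_dualAnnihilator_eq (LinearMap.ker B)
  have heq : LinearMap.range B = (LinearMap.ker B).dualAnnihilator := by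
    have h5 : finrank k (LinearMap.ker B) + finrank k (LinearMap.range B) =
        finrank k (LinearMap.ker B) + finrank k (LinearMap.ker B).dualAnnihilator := by
      rw [h2]; omega
    exact Submodule.eq_of_le_of_finrank_eq hle (Nat.add_left_cancel h5)
  have h3 : f ∈ (LinearMap.ker B).dualAnnihilator := by
    rw [Submodule.mem_dualAnnihilator]; exact hf
  rw [← heq] at h3
  exact h3

variable {k L₀ L₁ : Type*} [Field k] [AddCommGroup L₀] [Module k L₀] [AddCommGroup L₁]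
  [Module k L₁] [FiniteDimensional k L₀] [FiniteDimensional k L₁]

/-- The radical of the restriction of `form₁ g ψ` to the centraliser of `ν`. -/
def radH (g : LieSuper k L₀ L₁) (ν : L₁) (ψ : L₀ →ₗ[k] k) : Submodule k L₁ where
  carrier := {y | y ∈ cO g ν ∧ ∀ y' ∈ cO g ν, ψ (g.b11 y y') = 0}
  add_mem' := by
    rintro a b ⟨ha, ha'⟩ ⟨hb, hb'⟩
    refine ⟨Submodule.add_mem _ ha hb, fun y' hy' => ?_⟩
    rw [map_add, LinearMap.add_apply, map_add, ha' y' hy', hb' y' hy', add_zero]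
  zero_mem' := ⟨Submodule.zero_mem _, fun y' _ => by rw [map_zero, LinearMap.zero_apply, map_zero]⟩
  smul_mem' := by
    rintro c a ⟨ha, ha'⟩
    refine ⟨Submodule.smul_mem _ _ ha, fun y' hy' => ?_⟩
    rw [map_smul, LinearMap.smul_apply, map_smul, ha' y' hy', smul_zero]

theorem form₁_add (g : LieSuper k L₀ L₁) (ψ φ : L₀ →ₗ[k] k) (t : k) :
    form₁ g (ψ + t • φ) = form₁ g ψ + t • form₁ g φ := by
  ext x x'
  rfl

theorem eq_zero_of_dual {x : L₀} (h : ∀ φ : L₀ →ₗ[k] k, φ x = 0) : x = 0 :=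
  (Module.forall_dual_apply_eq_zero_iff k x).1 h

/-- The case of maximal rank. -/
theorem max_case [Infinite k] (h2 : (2 : k) ≠ 0) (g : LieSuper k L₀ L₁) (ψ : L₀ →ₗ[k] k)
    (hmax : ∀ θ', bOdd g θ' ≤ bOdd g ψ) (ν : L₁) (hν : ν ∈ LinearMap.ker (form₁ g ψ)) :
    (∀ y ∈ LinearMap.ker (form₁ g ψ), g.b11 ν y = 0) ∧
    2 * finrank k L₁ = bOdd g ψ + finrank k (cO g ν) + finrank k (radH g ν ψ) := by
  have hker : ∀ θ', finrank k (LinearMap.ker (form₁ g ψ)) ≤
      finrank k (LinearMap.ker (form₁ g θ')) := by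
    intro θ'
    have h1 := hmax θ'
    unfold bOdd at h1
    have h3 := Submodule.finrank_le (LinearMap.ker (form₁ g ψ))
    have h4 := Submodule.finrank_le (LinearMap.ker (form₁ g θ'))
    omega
  have P : ∀ φ : L₀ →ₗ[k] k,
      (∀ v ∈ LinearMap.ker (form₁ g ψ), ∀ w ∈ LinearMap.ker (form₁ g ψ), form₁ g φ v w = 0) ∧
      ∀ v ∈ LinearMap.ker (form₁ g ψ), ∀ y, form₁ g ψ y = form₁ g φ v → form₁ g φ v y = 0 :=
    fun φ => pencil h2 (form₁ g ψ) (form₁ g φ) (form₁_symm ψ) (form₁_symm φ) (fun t => by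
      rw [← form₁_add]; exact hker _)
  have ha : ∀ y ∈ LinearMap.ker (form₁ g ψ), g.b11 ν y = 0 := fun y hy =>
    eq_zero_of_dual (k := k) (fun φ => (P φ).1 ν hν y hy)
  have hb : ∀ (φ : L₀ →ₗ[k] k) (y : L₁), form₁ g ψ y = form₁ g φ ν → g.b11 ν y = 0 := by
    intro φ y hy
    refine eq_zero_of_dual (k := k) (fun φ' => ?_)
    obtain ⟨y', hy'⟩ := mem_range_symm (form₁ g ψ) (form₁_symm ψ) (form₁ g φ' ν)
      (fun v hv => (P φ').1 ν hν v hv)
    have e1 := (P φ).2 ν hν y hy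
    have e2 := (P φ').2 ν hν y' hy'
    have e3 := (P (φ + (1 : k) • φ')).2 ν hν (y + y') (by
      rw [form₁_add, map_add, hy, hy', one_smul, LinearMap.add_apply])
    rw [form₁_add, one_smul, LinearMap.add_apply, LinearMap.add_apply, map_add, map_add, e1, e2]
      at e3
    have e4 : form₁ g φ ν y' = form₁ g φ' ν y := by
      rw [← hy, form₁_symm, hy']
    rw [e4] at e3
    have e5 : (2 : k) * form₁ g φ' ν y = 0 := by linear_combination e3
    rcases mul_eq_zero.1 e5 with h | h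
    · exact absurd h h2
    · exact h
  have hc : ∀ y, (∀ y' ∈ cO g ν, form₁ g ψ y y' = 0) → y ∈ cO g ν := by
    intro y hy
    have h1 : form₁ g ψ y ∈ (LinearMap.ker (g.b11 ν)).dualAnnihilator := by
      rw [Submodule.mem_dualAnnihilator]; exact hy
    rw [← LinearMap.range_dualMap_eq_dualAnnihilator_ker] at h1
    obtain ⟨φ, hφ⟩ := h1
    rw [mem_cO]
    refine hb φ y ?_
    rw [← hφ]
    rfl
  refine ⟨ha, ?_⟩
  have h3 := finrank_perp (form₁ g ψ) (form₁_symm ψ) (cO g ν) (radH g ν ψ) (by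
    intro y
    constructor
    · rintro ⟨-, h⟩; exact h
    · intro h; exact ⟨hc y h, h⟩)
  have h4 : (cO g ν ⊓ LinearMap.ker (form₁ g ψ) : Submodule k L₁) =
      LinearMap.ker (form₁ g ψ) := by
    rw [inf_eq_right]
    intro y hy
    exact ha y hy
  rw [h4] at h3
  have h5 := Submodule.finrank_le (LinearMap.ker (form₁ g ψ))
  unfold bOdd
  omega

/-- The restricted form on the centraliser. -/
def AH (g : LieSuper k L₀ L₁) (ν : L₁) (ψ : L₀ →ₗ[k] k) : cO g ν →ₗ[k] Dual k (cO g ν) :=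
  (LinearMap.lcomp k k (cO g ν).subtype).comp ((form₁ g ψ).comp (cO g ν).subtype)

theorem finrank_AH (g : LieSuper k L₀ L₁) (ν : L₁) (ψ : L₀ →ₗ[k] k) :
    finrank k (LinearMap.ker (AH g ν ψ)) = finrank k (radH g ν ψ) := by
  have h1 : (LinearMap.ker (AH g ν ψ)).map (cO g ν).subtype = radH g ν ψ := by
    ext y
    rw [Submodule.mem_map]
    constructor
    · rintro ⟨⟨y, hy⟩, h, rfl⟩
      refine ⟨hy, fun y' hy' => ?_⟩
      have := LinearMap.congr_fun (LinearMap.mem_ker.1 h) ⟨y', hy'⟩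
      exact this
    · rintro ⟨hy, h⟩
      refine ⟨⟨y, hy⟩, ?_, rfl⟩
      rw [LinearMap.mem_ker]
      apply LinearMap.ext
      rintro ⟨y', hy'⟩
      exact h y' hy'
  rw [← h1]
  exact (LinearEquiv.finrank_eq (Submodule.equivMapOfInjective _
    (Submodule.injective_subtype _) _))

theorem rank_red [Infinite k] (h2 : (2 : k) ≠ 0) (g : LieSuper k L₀ L₁) (θ : L₀ →ₗ[k] k)
    (hmax : ∀ θ', bOdd g θ' ≤ bOdd g θ) (ν : L₁) (hν : ν ∈ LinearMap.ker (form₁ g θ)) :
    g.b11 ν ν = 0 ∧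
    (∀ ψ : L₀ →ₗ[k] k, (∀ y, ψ (g.b11 ν y) = 0) →
      2 * finrank k L₁ ≤ bOdd g θ + finrank k (cO g ν) + finrank k (radH g ν ψ)) ∧
    2 * finrank k L₁ = bOdd g θ + finrank k (cO g ν) + finrank k (radH g ν θ) := by
  obtain ⟨m1, m2⟩ := max_case h2 g θ hmax ν hν
  refine ⟨m1 ν hν, fun ψ hψ => ?_, m2⟩
  obtain ⟨S0, hS0, h0⟩ := exists_aux (AH g ν ψ) (AH g ν θ)
  obtain ⟨S1, hS1, h1⟩ := exists_aux (form₁ g θ) (form₁ g ψ)
  have hf0 : (({0} : Set k) ∪ (S0.image fun s => -s⁻¹) ∪ (S1.image fun s => -s)).Finite :=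
    ((Set.finite_singleton 0).union (hS0.image _)).union (hS1.image _)
  obtain ⟨t, ht⟩ := hf0.infinite_compl.nonempty
  rw [Set.mem_compl_iff, Set.mem_union, Set.mem_union, not_or, not_or] at ht
  obtain ⟨⟨ht0, ht1⟩, ht2⟩ := ht
  have ht0' : t ≠ 0 := fun h => ht0 h
  have h3 := h0 t ht0' (by
      intro h3
      apply ht1
      refine ⟨_, h3, ?_⟩
      show -(-t⁻¹)⁻¹ = t
      rw [inv_neg, inv_inv, neg_neg])
  have h4 := h1 t⁻¹ (inv_ne_zero ht0') (by
      intro h3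
      apply ht2
      refine ⟨_, h3, ?_⟩
      show -(-(t⁻¹)⁻¹) = t
      rw [inv_inv, neg_neg])
  have h5 : AH g ν (ψ + t • θ) = AH g ν ψ + t • AH g ν θ := by
    ext x x'
    rfl
  have h6 : form₁ g (ψ + t • θ) = t • (form₁ g θ + t⁻¹ • form₁ g ψ) := by
    ext x x'
    show ψ (g.b11 x x') + t * θ (g.b11 x x') =
      t * (θ (g.b11 x x') + t⁻¹ * ψ (g.b11 x x'))
    rw [mul_add, ← mul_assoc, mul_inv_cancel₀ ht0', one_mul, add_comm]
  have h7 : bOdd g θ ≤ bOdd g (ψ + t • θ) := by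
    unfold bOdd
    rw [h6, LinearMap.ker_smul _ _ ht0']
    omega
  have hν' : ν ∈ LinearMap.ker (form₁ g (ψ + t • θ)) := by
    rw [LinearMap.mem_ker]
    apply LinearMap.ext
    intro y
    have e1 : form₁ g θ ν y = 0 := by rw [LinearMap.mem_ker.1 hν, LinearMap.zero_apply]
    rw [form₁_add, LinearMap.add_apply, LinearMap.smul_apply, LinearMap.add_apply,
      LinearMap.smul_apply, e1, smul_zero, add_zero, LinearMap.zero_apply]
    exact hψ y
  obtain ⟨-, m3⟩ := max_case h2 g (ψ + t • θ) (fun θ' => (hmax θ').trans h7) ν hν'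
  rw [← finrank_AH, h5] at m3
  rw [finrank_AH g ν ψ] at h3
  have h8 := hmax (ψ + t • θ)
  omega

end Pool.Agent.Helper34.SKF
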